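import Pool.Agent.T9h12.C6.H1.Tab
import Pool.Agent.T9h12.C6.Eval

/-! Evaluation of the certificate, part 1. -/

set_option autoImplicit false
set_option maxRecDepth 100000
set_option maxHeartbeats 4000000

namespace Pool.Agent.T9h12.C6.H1
open Pool.Agent.H449R2.Fl

theorem k92 : ckR nobad (val sig idf ip TG TP TQ) 2557512662952 92 13 = true := by
  decide +kernel
theorem k105 : ckR nobad (val sig idf ip TG TP TQ) 2557512662952 105 11 = true := by
  decide +kernel
theorem k116 : ckR nobad (val sig idf ip TG TP TQ) 2557512662952 116 12 = true := by
  decide +kernel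
theorem k128 : ckR nobad (val sig idf ip TG TP TQ) 2557512662952 128 22 = true := by
  decide +kernel
theorem k150 : ckR nobad (val sig idf ip TG TP TQ) 2557512662952 150 23 = true := by
  decide +kernel
theorem k173 : ckR nobad (val sig idf ip TG TP TQ) 2557512662952 173 12 = true := by
  decide +kernel
theorem k185 : ckR nobad (val sig idf ip TG TP TQ) 2557512662952 185 12 = true := by
  decide +kernel

end Pool.Agent.T9h12.C6.H1
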