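import Pool.Agent.T9h12.C6.H1.Tab
import Pool.Agent.T9h12.C6.Eval

/-! Evaluation of the certificate, part 10. -/

set_option autoImplicit false
set_option maxRecDepth 100000
set_option maxHeartbeats 4000000

namespace Pool.Agent.T9h12.C6.H1
open Pool.Agent.H449R2.Fl

theorem k1262 : ckR nobad (val sig idf ip TG TP TQ) 2557512662952 1262 22 = true := by
  decide +kernel
theorem k1284 : ckR nobad (val sig idf ip TG TP TQ) 2557512662952 1284 11 = true := by
  decide +kernel
theorem k1295 : ckR nobad (val sig idf ip TG TP TQ) 2557512662952 1295 11 = true := by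
  decide +kernel
theorem k1306 : ckR nobad (val sig idf ip TG TP TQ) 2557512662952 1306 30 = true := by
  decide +kernel
theorem k1336 : ckR nobad (val sig idf ip TG TP TQ) 2557512662952 1336 28 = true := by
  decide +kernel
theorem k1364 : ckR nobad (val sig idf ip TG TP TQ) 2557512662952 1364 14 = true := by
  decide +kernel
theorem k1378 : ckR nobad (val sig idf ip TG TP TQ) 2557512662952 1378 17 = true := by
  decide +kernel

end Pool.Agent.T9h12.C6.H1
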