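import Pool.Agent.T9h12.C6.H1.Tab
import Pool.Agent.T9h12.C6.Eval

/-! Evaluation of the certificate, part 11. -/

set_option autoImplicit false
set_option maxRecDepth 100000
set_option maxHeartbeats 4000000

namespace Pool.Agent.T9h12.C6.H1
open Pool.Agent.H449R2.Fl

theorem k1395 : ckR nobad (val sig idf ip TG TP TQ) 2557512662952 1395 18 = true := by
  decide +kernel
theorem k1413 : ckR nobad (val sig idf ip TG TP TQ) 2557512662952 1413 15 = true := by
  decide +kernel
theorem k1428 : ckR nobad (val sig idf ip TG TP TQ) 2557512662952 1428 18 = true := by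
  decide +kernel
theorem k1446 : ckR nobad (val sig idf ip TG TP TQ) 2557512662952 1446 11 = true := by
  decide +kernel
theorem k1457 : ckR nobad (val sig idf ip TG TP TQ) 2557512662952 1457 28 = true := by
  decide +kernel
theorem k1485 : ckR nobad (val sig idf ip TG TP TQ) 2557512662952 1485 23 = true := by
  decide +kernel
theorem k1508 : ckR nobad (val sig idf ip TG TP TQ) 2557512662952 1508 50 = true := by
  decide +kernel

end Pool.Agent.T9h12.C6.H1
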