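import Pool.Agent.T9h12.C6.H1.Tab
import Pool.Agent.T9h12.C6.Eval

/-! Evaluation of the certificate, part 12. -/

set_option autoImplicit false
set_option maxRecDepth 100000
set_option maxHeartbeats 4000000

namespace Pool.Agent.T9h12.C6.H1
open Pool.Agent.H449R2.Fl

theorem k1558 : ckR nobad (val sig idf ip TG TP TQ) 2557512662952 1558 23 = true := by
  decide +kernel
theorem k1581 : ckR nobad (val sig idf ip TG TP TQ) 2557512662952 1581 59 = true := by
  decide +kernel
theorem k1640 : ckR nobad (val sig idf ip TG TP TQ) 2557512662952 1640 17 = true := by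
  decide +kernel
theorem k1657 : ckR nobad (val sig idf ip TG TP TQ) 2557512662952 1657 11 = true := by
  decide +kernel
theorem k1668 : ckR nobad (val sig idf ip TG TP TQ) 2557512662952 1668 32 = true := by
  decide +kernel
theorem k1700 : ckR nobad (val sig idf ip TG TP TQ) 2557512662952 1700 45 = true := by
  decide +kernel
theorem k1745 : ckR nobad (val sig idf ip TG TP TQ) 2557512662952 1745 65 = true := by
  decide +kernel

end Pool.Agent.T9h12.C6.H1
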