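import Pool.Agent.T9h12.C6.H1.Tab
import Pool.Agent.T9h12.C6.Eval

/-! Evaluation of the certificate, part 13. -/

set_option autoImplicit false
set_option maxRecDepth 100000
set_option maxHeartbeats 4000000

namespace Pool.Agent.T9h12.C6.H1
open Pool.Agent.H449R2.Fl

theorem k1810 : ckR nobad (val sig idf ip TG TP TQ) 2557512662952 1810 17 = true := by
  decide +kernel
theorem k1827 : ckR nobad (val sig idf ip TG TP TQ) 2557512662952 1827 23 = true := by
  decide +kernel
theorem k1850 : ckR nobad (val sig idf ip TG TP TQ) 2557512662952 1850 48 = true := by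
  decide +kernel
theorem k1898 : ckR nobad (val sig idf ip TG TP TQ) 2557512662952 1898 87 = true := by
  decide +kernel
theorem k1985 : ckR nobad (val sig idf ip TG TP TQ) 2557512662952 1985 103 = true := by
  decide +kernel
theorem k2088 : ckR nobad (val sig idf ip TG TP TQ) 2557512662952 2088 48 = true := by
  decide +kernel

end Pool.Agent.T9h12.C6.H1
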