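import Pool.Agent.T9h12.C6.H1.Tab
import Pool.Agent.T9h12.C6.Eval

/-! Evaluation of the certificate, part 5. -/

set_option autoImplicit false
set_option maxRecDepth 100000
set_option maxHeartbeats 4000000

namespace Pool.Agent.T9h12.C6.H1
open Pool.Agent.H449R2.Fl

theorem k548 : ckR nobad (val sig idf ip TG TP TQ) 2557512662952 548 16 = true := by
  decide +kernel
theorem k564 : ckR nobad (val sig idf ip TG TP TQ) 2557512662952 564 13 = true := by
  decide +kernel
theorem k577 : ckR nobad (val sig idf ip TG TP TQ) 2557512662952 577 19 = true := by
  decide +kernel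
theorem k596 : ckR nobad (val sig idf ip TG TP TQ) 2557512662952 596 33 = true := by
  decide +kernel
theorem k629 : ckR nobad (val sig idf ip TG TP TQ) 2557512662952 629 15 = true := by
  decide +kernel
theorem k644 : ckR nobad (val sig idf ip TG TP TQ) 2557512662952 644 11 = true := by
  decide +kernel
theorem k655 : ckR nobad (val sig idf ip TG TP TQ) 2557512662952 655 13 = true := by
  decide +kernel

end Pool.Agent.T9h12.C6.H1
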