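import Pool.Agent.T9h12.C6.H1.Tab
import Pool.Agent.T9h12.C6.Eval

/-! Evaluation of the certificate, part 6. -/

set_option autoImplicit false
set_option maxRecDepth 100000
set_option maxHeartbeats 4000000

namespace Pool.Agent.T9h12.C6.H1
open Pool.Agent.H449R2.Fl

theorem k668 : ckR nobad (val sig idf ip TG TP TQ) 2557512662952 668 17 = true := by
  decide +kernel
theorem k685 : ckR nobad (val sig idf ip TG TP TQ) 2557512662952 685 18 = true := by
  decide +kernel
theorem k703 : ckR nobad (val sig idf ip TG TP TQ) 2557512662952 703 23 = true := by
  decide +kernel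
theorem k726 : ckR nobad (val sig idf ip TG TP TQ) 2557512662952 726 15 = true := by
  decide +kernel
theorem k741 : ckR nobad (val sig idf ip TG TP TQ) 2557512662952 741 12 = true := by
  decide +kernel
theorem k753 : ckR nobad (val sig idf ip TG TP TQ) 2557512662952 753 12 = true := by
  decide +kernel
theorem k765 : ckR nobad (val sig idf ip TG TP TQ) 2557512662952 765 16 = true := by
  decide +kernel

end Pool.Agent.T9h12.C6.H1
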