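import Pool.Agent.T9h12.C6.H1.Tab
import Pool.Agent.T9h12.C6.Eval

/-! Evaluation of the certificate, part 9. -/

set_option autoImplicit false
set_option maxRecDepth 100000
set_option maxHeartbeats 4000000

namespace Pool.Agent.T9h12.C6.H1
open Pool.Agent.H449R2.Fl

theorem k1119 : ckR nobad (val sig idf ip TG TP TQ) 2557512662952 1119 53 = true := by
  decide +kernel
theorem k1172 : ckR nobad (val sig idf ip TG TP TQ) 2557512662952 1172 12 = true := by
  decide +kernel
theorem k1184 : ckR nobad (val sig idf ip TG TP TQ) 2557512662952 1184 13 = true := by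
  decide +kernel
theorem k1197 : ckR nobad (val sig idf ip TG TP TQ) 2557512662952 1197 27 = true := by
  decide +kernel
theorem k1224 : ckR nobad (val sig idf ip TG TP TQ) 2557512662952 1224 13 = true := by
  decide +kernel
theorem k1237 : ckR nobad (val sig idf ip TG TP TQ) 2557512662952 1237 12 = true := by
  decide +kernel
theorem k1249 : ckR nobad (val sig idf ip TG TP TQ) 2557512662952 1249 13 = true := by
  decide +kernel

end Pool.Agent.T9h12.C6.H1
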