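import Pool.Agent.T9h12.C6.H1.K0
import Pool.Agent.T9h12.C6.H1.K1
import Pool.Agent.T9h12.C6.H1.K2
import Pool.Agent.T9h12.C6.H1.K3
import Pool.Agent.T9h12.C6.H1.K4
import Pool.Agent.T9h12.C6.H1.K5
import Pool.Agent.T9h12.C6.H1.K6
import Pool.Agent.T9h12.C6.H1.K7
import Pool.Agent.T9h12.C6.H1.K8
import Pool.Agent.T9h12.C6.H1.K9
import Pool.Agent.T9h12.C6.H1.K10
import Pool.Agent.T9h12.C6.H1.K11
import Pool.Agent.T9h12.C6.H1.K12
import Pool.Agent.T9h12.C6.H1.K13
import Pool.Agent.T9h12.C6.H1.Gr

/-! Evaluation of the certificate: all representatives. -/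

set_option autoImplicit false
set_option maxRecDepth 100000
set_option maxHeartbeats 4000000

namespace Pool.Agent.T9h12.C6.H1
open Pool.Agent.H449R2.Fl

theorem chk_all : ∀ h < 2136, ∀ c0 ≤ 1, ∀ c1 ≤ 1, ∀ c2 ≤ 1, ∀ c3 ≤ 1, ∀ c4 ≤ 1, ∀ c5 ≤ 1,
    ((hasK4 (rep6 h) || nobad (rep6 h) c0 c1 c2 c3 c4 c5) ||
      Nat.ble (val sig idf ip TG TP TQ (rep6 h) c0 c1 c2 c3 c4 c5) 2557512662952) = true := by
  intro h hh
  rcases Nat.lt_or_ge h 12 with h1 | h1
  · exact ckR_true k0 (by omega) (by omega)
  rcases Nat.lt_or_ge h 26 with h1 | h1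
  · exact ckR_true k12 (by omega) (by omega)
  rcases Nat.lt_or_ge h 42 with h1 | h1
  · exact ckR_true k26 (by omega) (by omega)
  rcases Nat.lt_or_ge h 53 with h1 | h1
  · exact ckR_true k42 (by omega) (by omega)
  rcases Nat.lt_or_ge h 66 with h1 | h1
  · exact ckR_true k53 (by omega) (by omega)
  rcases Nat.lt_or_ge h 77 with h1 | h1
  · exact ckR_true k66 (by omega) (by omega)
  rcases Nat.lt_or_ge h 92 with h1 | h1
  · exact ckR_true k77 (by omega) (by omega)
  rcases Nat.lt_or_ge h 105 with h1 | h1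
  · exact ckR_true k92 (by omega) (by omega)
  rcases Nat.lt_or_ge h 116 with h1 | h1
  · exact ckR_true k105 (by omega) (by omega)
  rcases Nat.lt_or_ge h 128 with h1 | h1
  · exact ckR_true k116 (by omega) (by omega)
  rcases Nat.lt_or_ge h 150 with h1 | h1
  · exact ckR_true k128 (by omega) (by omega)
  rcases Nat.lt_or_ge h 173 with h1 | h1
  · exact ckR_true k150 (by omega) (by omega)
  rcases Nat.lt_or_ge h 185 with h1 | h1
  · exact ckR_true k173 (by omega) (by omega)
  rcases Nat.lt_or_ge h 197 with h1 | h1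
  · exact ckR_true k185 (by omega) (by omega)
  rcases Nat.lt_or_ge h 210 with h1 | h1
  · exact ckR_true k197 (by omega) (by omega)
  rcases Nat.lt_or_ge h 221 with h1 | h1
  · exact ckR_true k210 (by omega) (by omega)
  rcases Nat.lt_or_ge h 232 with h1 | h1
  · exact ckR_true k221 (by omega) (by omega)
  rcases Nat.lt_or_ge h 243 with h1 | h1
  · exact ckR_true k232 (by omega) (by omega)
  rcases Nat.lt_or_ge h 255 with h1 | h1
  · exact ckR_true k243 (by omega) (by omega)
  rcases Nat.lt_or_ge h 274 with h1 | h1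
  · exact ckR_true k255 (by omega) (by omega)
  rcases Nat.lt_or_ge h 287 with h1 | h1
  · exact ckR_true k274 (by omega) (by omega)
  rcases Nat.lt_or_ge h 301 with h1 | h1
  · exact ckR_true k287 (by omega) (by omega)
  rcases Nat.lt_or_ge h 319 with h1 | h1
  · exact ckR_true k301 (by omega) (by omega)
  rcases Nat.lt_or_ge h 330 with h1 | h1
  · exact ckR_true k319 (by omega) (by omega)
  rcases Nat.lt_or_ge h 341 with h1 | h1
  · exact ckR_true k330 (by omega) (by omega)
  rcases Nat.lt_or_ge h 366 with h1 | h1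
  · exact ckR_true k341 (by omega) (by omega)
  rcases Nat.lt_or_ge h 383 with h1 | h1
  · exact ckR_true k366 (by omega) (by omega)
  rcases Nat.lt_or_ge h 422 with h1 | h1
  · exact ckR_true k383 (by omega) (by omega)
  rcases Nat.lt_or_ge h 445 with h1 | h1
  · exact ckR_true k422 (by omega) (by omega)
  rcases Nat.lt_or_ge h 475 with h1 | h1
  · exact ckR_true k445 (by omega) (by omega)
  rcases Nat.lt_or_ge h 500 with h1 | h1
  · exact ckR_true k475 (by omega) (by omega)
  rcases Nat.lt_or_ge h 511 with h1 | h1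
  · exact ckR_true k500 (by omega) (by omega)
  rcases Nat.lt_or_ge h 525 with h1 | h1
  · exact ckR_true k511 (by omega) (by omega)
  rcases Nat.lt_or_ge h 538 with h1 | h1
  · exact ckR_true k525 (by omega) (by omega)
  rcases Nat.lt_or_ge h 548 with h1 | h1
  · exact ckR_true k538 (by omega) (by omega)
  rcases Nat.lt_or_ge h 564 with h1 | h1
  · exact ckR_true k548 (by omega) (by omega)
  rcases Nat.lt_or_ge h 577 with h1 | h1
  · exact ckR_true k564 (by omega) (by omega)
  rcases Nat.lt_or_ge h 596 with h1 | h1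
  · exact ckR_true k577 (by omega) (by omega)
  rcases Nat.lt_or_ge h 629 with h1 | h1
  · exact ckR_true k596 (by omega) (by omega)
  rcases Nat.lt_or_ge h 644 with h1 | h1
  · exact ckR_true k629 (by omega) (by omega)
  rcases Nat.lt_or_ge h 655 with h1 | h1
  · exact ckR_true k644 (by omega) (by omega)
  rcases Nat.lt_or_ge h 668 with h1 | h1
  · exact ckR_true k655 (by omega) (by omega)
  rcases Nat.lt_or_ge h 685 with h1 | h1
  · exact ckR_true k668 (by omega) (by omega)
  rcases Nat.lt_or_ge h 703 with h1 | h1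
  · exact ckR_true k685 (by omega) (by omega)
  rcases Nat.lt_or_ge h 726 with h1 | h1
  · exact ckR_true k703 (by omega) (by omega)
  rcases Nat.lt_or_ge h 741 with h1 | h1
  · exact ckR_true k726 (by omega) (by omega)
  rcases Nat.lt_or_ge h 753 with h1 | h1
  · exact ckR_true k741 (by omega) (by omega)
  rcases Nat.lt_or_ge h 765 with h1 | h1
  · exact ckR_true k753 (by omega) (by omega)
  rcases Nat.lt_or_ge h 781 with h1 | h1
  · exact ckR_true k765 (by omega) (by omega)
  rcases Nat.lt_or_ge h 799 with h1 | h1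
  · exact ckR_true k781 (by omega) (by omega)
  rcases Nat.lt_or_ge h 815 with h1 | h1
  · exact ckR_true k799 (by omega) (by omega)
  rcases Nat.lt_or_ge h 834 with h1 | h1
  · exact ckR_true k815 (by omega) (by omega)
  rcases Nat.lt_or_ge h 845 with h1 | h1
  · exact ckR_true k834 (by omega) (by omega)
  rcases Nat.lt_or_ge h 865 with h1 | h1
  · exact ckR_true k845 (by omega) (by omega)
  rcases Nat.lt_or_ge h 887 with h1 | h1
  · exact ckR_true k865 (by omega) (by omega)
  rcases Nat.lt_or_ge h 898 with h1 | h1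
  · exact ckR_true k887 (by omega) (by omega)
  rcases Nat.lt_or_ge h 928 with h1 | h1
  · exact ckR_true k898 (by omega) (by omega)
  rcases Nat.lt_or_ge h 961 with h1 | h1
  · exact ckR_true k928 (by omega) (by omega)
  rcases Nat.lt_or_ge h 989 with h1 | h1
  · exact ckR_true k961 (by omega) (by omega)
  rcases Nat.lt_or_ge h 1016 with h1 | h1
  · exact ckR_true k989 (by omega) (by omega)
  rcases Nat.lt_or_ge h 1054 with h1 | h1
  · exact ckR_true k1016 (by omega) (by omega)
  rcases Nat.lt_or_ge h 1100 with h1 | h1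
  · exact ckR_true k1054 (by omega) (by omega)
  rcases Nat.lt_or_ge h 1119 with h1 | h1
  · exact ckR_true k1100 (by omega) (by omega)
  rcases Nat.lt_or_ge h 1172 with h1 | h1
  · exact ckR_true k1119 (by omega) (by omega)
  rcases Nat.lt_or_ge h 1184 with h1 | h1
  · exact ckR_true k1172 (by omega) (by omega)
  rcases Nat.lt_or_ge h 1197 with h1 | h1
  · exact ckR_true k1184 (by omega) (by omega)
  rcases Nat.lt_or_ge h 1224 with h1 | h1
  · exact ckR_true k1197 (by omega) (by omega)
  rcases Nat.lt_or_ge h 1237 with h1 | h1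
  · exact ckR_true k1224 (by omega) (by omega)
  rcases Nat.lt_or_ge h 1249 with h1 | h1
  · exact ckR_true k1237 (by omega) (by omega)
  rcases Nat.lt_or_ge h 1262 with h1 | h1
  · exact ckR_true k1249 (by omega) (by omega)
  rcases Nat.lt_or_ge h 1284 with h1 | h1
  · exact ckR_true k1262 (by omega) (by omega)
  rcases Nat.lt_or_ge h 1295 with h1 | h1
  · exact ckR_true k1284 (by omega) (by omega)
  rcases Nat.lt_or_ge h 1306 with h1 | h1
  · exact ckR_true k1295 (by omega) (by omega)
  rcases Nat.lt_or_ge h 1336 with h1 | h1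
  · exact ckR_true k1306 (by omega) (by omega)
  rcases Nat.lt_or_ge h 1364 with h1 | h1
  · exact ckR_true k1336 (by omega) (by omega)
  rcases Nat.lt_or_ge h 1378 with h1 | h1
  · exact ckR_true k1364 (by omega) (by omega)
  rcases Nat.lt_or_ge h 1395 with h1 | h1
  · exact ckR_true k1378 (by omega) (by omega)
  rcases Nat.lt_or_ge h 1413 with h1 | h1
  · exact ckR_true k1395 (by omega) (by omega)
  rcases Nat.lt_or_ge h 1428 with h1 | h1
  · exact ckR_true k1413 (by omega) (by omega)
  rcases Nat.lt_or_ge h 1446 with h1 | h1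
  · exact ckR_true k1428 (by omega) (by omega)
  rcases Nat.lt_or_ge h 1457 with h1 | h1
  · exact ckR_true k1446 (by omega) (by omega)
  rcases Nat.lt_or_ge h 1485 with h1 | h1
  · exact ckR_true k1457 (by omega) (by omega)
  rcases Nat.lt_or_ge h 1508 with h1 | h1
  · exact ckR_true k1485 (by omega) (by omega)
  rcases Nat.lt_or_ge h 1558 with h1 | h1
  · exact ckR_true k1508 (by omega) (by omega)
  rcases Nat.lt_or_ge h 1581 with h1 | h1
  · exact ckR_true k1558 (by omega) (by omega)
  rcases Nat.lt_or_ge h 1640 with h1 | h1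
  · exact ckR_true k1581 (by omega) (by omega)
  rcases Nat.lt_or_ge h 1657 with h1 | h1
  · exact ckR_true k1640 (by omega) (by omega)
  rcases Nat.lt_or_ge h 1668 with h1 | h1
  · exact ckR_true k1657 (by omega) (by omega)
  rcases Nat.lt_or_ge h 1700 with h1 | h1
  · exact ckR_true k1668 (by omega) (by omega)
  rcases Nat.lt_or_ge h 1745 with h1 | h1
  · exact ckR_true k1700 (by omega) (by omega)
  rcases Nat.lt_or_ge h 1810 with h1 | h1
  · exact ckR_true k1745 (by omega) (by omega)
  rcases Nat.lt_or_ge h 1827 with h1 | h1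
  · exact ckR_true k1810 (by omega) (by omega)
  rcases Nat.lt_or_ge h 1850 with h1 | h1
  · exact ckR_true k1827 (by omega) (by omega)
  rcases Nat.lt_or_ge h 1898 with h1 | h1
  · exact ckR_true k1850 (by omega) (by omega)
  rcases Nat.lt_or_ge h 1985 with h1 | h1
  · exact ckR_true k1898 (by omega) (by omega)
  rcases Nat.lt_or_ge h 2088 with h1 | h1
  · exact ckR_true k1985 (by omega) (by omega)
  rcases Nat.lt_or_ge h 2136 with h1 | h1
  · exact ckR_true k2088 (by omega) (by omega)
  omega

end Pool.Agent.T9h12.C6.H1
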